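import Mathlib
import Pool.Agent.Lib.MP_55e6de_ag.HnF
import Pool.Agent.Lib.MP_55e6de_ag.HnG

/-!
# MP_55e6de_ag: Nagai's equality in type II follows from bounds on jumps of Hodge numbers

Let `H` be a module over the Looijenga-Lunts-Verbitsky algebra with the formal properties of the
even cohomology of a hyperkaehler manifold of dimension `2 n` (`IsHK`), `b = dim V`, and let `N` be
an element of `so(V)` of rank `2` with `N ^ 2 = 0` (a logarithm of monodromy of type II). Let `m` be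
`(b - 3) / 2` rounded down and `octa (Fin m) j` the number of `ν : Fin m → ℤ` with `∑ |ν i| ≤ j`. If
`h^{r,p} < h^{r-2,p} + octa (Fin m) (p + 1)` for all `p ≥ 1` and all `r` with `3 p + 2 ≤ r ≤ n`,
`p + r ≤ 2 k` and `p + r` even, then Nagai's equality `nilp (N on H^{2k}) = k` holds. In particular
`h^{5,1} ≤ h^{3,1} + 2 m (m + 1)` implies the equality for `k = 3` and any `n ≥ 3` (the first case
which is not known) and for all `k` if `n = 5` or `n = 6`.
-/

set_option autoImplicit false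

namespace Pool.Agent.Results.MP_55e6de_ag.HodgeJump

open Pool.Agent.MP_55e6de_ag

attribute [local instance 100] LieRing.ofAssociativeRing

theorem result {V H : Type*} [AddCommGroup V] [Module ℂ V] [FiniteDimensional ℂ V]
    [AddCommGroup H] [Module ℂ H] [FiniteDimensional ℂ H]
    (q : LinearMap.BilinForm ℂ V) (hq : ∀ x y, q x y = q y x)
    (hV : 5 ≤ Module.finrank ℂ V) (s s' : V) (n : ℕ)
    (ρ : LLV q →ₗ⁅ℂ⁆ Module.End ℂ H) (h : IsHK q hq s s' ρ n)
    (N : Module.End ℂ V) (hN : ∀ x y, q (N x) y = - q x (N y)) (hN2 : ∀ x, N (N x) = 0)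
    (hr : Module.finrank ℂ (LinearMap.range N) = 2) (m : ℕ)
    (hm : m = (Module.finrank ℂ V - 3) / 2) :
    (∀ k, 1 ≤ k → k ≤ n →
      (∀ p r : ℕ, 1 ≤ p → 3 * p + 2 ≤ r → r ≤ n → p + r ≤ 2 * k → Even (p + r) →
        Module.finrank ℂ (piece q hq s s' ρ n r p) <
          Module.finrank ℂ (piece q hq s s' ρ n (r - 2) p) + octa (Fin m) (p + 1)) →
      nilp q hq ρ n N hN k = k) ∧
    (Module.finrank ℂ (piece q hq s s' ρ n 5 1) ≤
        Module.finrank ℂ (piece q hq s s' ρ n 3 1) + 2 * m * (m + 1) →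
      (3 ≤ n → nilp q hq ρ n N hN 3 = 3) ∧
      (n = 5 ∨ n = 6 → ∀ k, 1 ≤ k → k ≤ n → nilp q hq ρ n N hN k = k)) := by
  obtain ⟨t, ht⟩ : ∃ t, m = t + 1 := ⟨m - 1, by omega⟩
  have key : ∀ k, 1 ≤ k → k ≤ n →
      (∀ p r : ℕ, 1 ≤ p → 3 * p + 2 ≤ r → r ≤ n → p + r ≤ 2 * k → Even (p + r) →
        Module.finrank ℂ (piece q hq s s' ρ n r p) <
          Module.finrank ℂ (piece q hq s s' ρ n (r - 2) p) + octa (Fin m) (p + 1)) →
      nilp q hq ρ n N hN k = k := by
    intro k hk1 hk hc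
    by_contra hf
    obtain ⟨p, r, c1, c2, c3, c4, c5, c6⟩ := hodge_jump h t (by omega) N hN hN2 hr k hk1 hk hf
    have h1 := hc p r c1 c2 c3 c4 c5
    rw [ht] at h1
    omega
  refine ⟨key, fun h5 => ?_⟩
  have key2 : ∀ p r : ℕ, p = 1 → r = 5 → Module.finrank ℂ (piece q hq s s' ρ n r p) <
      Module.finrank ℂ (piece q hq s s' ρ n (r - 2) p) + octa (Fin m) (p + 1) := by
    intro p r hp hr5
    subst hp
    subst hr5
    have h1 := octa_two m
    have h2 : 5 - 2 = 3 := rfl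
    have h3 : 1 + 1 = 2 := rfl
    rw [h2, h3]
    omega
  refine ⟨fun hn => key 3 (by norm_num) hn fun p r c1 c2 c3 c4 c5 => ?_,
    fun hn k hk1 hk => key k hk1 hk fun p r c1 c2 c3 c4 c5 => ?_⟩
  · exact key2 p r (by omega) (by omega)
  · obtain ⟨z, hz⟩ := c5
    exact key2 p r (by omega) (by omega)

end Pool.Agent.Results.MP_55e6de_ag.HodgeJump
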