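import Mathlib
import Pool.Agent.Lib.MP_55e6de_ag.One

/-!
# MP_55e6de_ag: for Nagai's equality in type II one degree is enough

Let `H` be a module over the Looijenga-Lunts-Verbitsky algebra with the formal properties of the
even cohomology of a hyperkaehler manifold of dimension `2 n` (`IsHK`) and let `N` be an element of
`so(V)` of rank `2` with `N ^ 2 = 0` (a logarithm of monodromy of type II). Let `k0` be
`(2 n - 1) / 3` rounded down (`(2 n - 1) / 3` in `ℕ`) or up (`(2 n + 1) / 3` in `ℕ`). If Nagai's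
equality `nilp (N on H^{2k}) = k` fails for `k`, then `3 ≤ k ≤ n - 2` and it fails for all `k'`
between `k` and `k0`. So if it holds for `k0`, then it holds for all `k`.
-/

set_option autoImplicit false

namespace Pool.Agent.Results.MP_55e6de_ag.OneDegree

open Pool.Agent.MP_55e6de_ag

attribute [local instance 100] LieRing.ofAssociativeRing

theorem result {V H : Type*} [AddCommGroup V] [Module ℂ V] [FiniteDimensional ℂ V]
    [AddCommGroup H] [Module ℂ H] [FiniteDimensional ℂ H]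
    (q : LinearMap.BilinForm ℂ V) (hq : ∀ x y, q x y = q y x)
    (hV : 5 ≤ Module.finrank ℂ V) (s s' : V) (n : ℕ)
    (ρ : LLV q →ₗ⁅ℂ⁆ Module.End ℂ H) (h : IsHK q hq s s' ρ n)
    (N : Module.End ℂ V) (hN : ∀ x y, q (N x) y = - q x (N y)) (hN2 : ∀ x, N (N x) = 0)
    (hr : Module.finrank ℂ (LinearMap.range N) = 2) (k0 : ℕ)
    (hk0 : k0 = (2 * n - 1) / 3 ∨ k0 = (2 * n + 1) / 3) :
    (∀ k, 1 ≤ k → k ≤ n → nilp q hq ρ n N hN k ≠ k →
      3 ≤ k ∧ k + 2 ≤ n ∧ ∀ k', (k ≤ k' ∧ k' ≤ k0) ∨ (k0 ≤ k' ∧ k' ≤ k) →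
        nilp q hq ρ n N hN k' ≠ k') ∧
    (nilp q hq ρ n N hN k0 = k0 → ∀ k, 1 ≤ k → k ≤ n → nilp q hq ρ n N hN k = k) := by
  have key := fun k (hk1 : 1 ≤ k) (hk : k ≤ n) (hf : nilp q hq ρ n N hN k ≠ k) =>
    one_fail h hV N hN hN2 hr k0 k (by omega) (by omega) hk1 hk hf
  refine ⟨key, fun h0 k hk1 hk => ?_⟩
  by_contra hf
  obtain ⟨-, -, h3⟩ := key k hk1 hk hf
  exact h3 k0 (by omega) h0

end Pool.Agent.Results.MP_55e6de_ag.OneDegree
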