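import Mathlib
import Pool.Agent.Lib.MP_55e6de_ag.Main

/-!
# MP_55e6de_ag: Nagai's conjecture for type II, on the level of the LLV module

Let `H` be a module over the Looijenga-Lunts-Verbitsky algebra with the formal properties of the
even cohomology of a hyperkaehler manifold of dimension `2 n` (`IsHK`) and let `N` be an element of
`so(V)` of rank `2` with `N ^ 2 = 0` (a logarithm of monodromy of type II). Then
`k ≤ nilp (N on H^{2k}) ≤ max (k, min (2k - 2, n - 1))` for `1 ≤ k ≤ n`. So Nagai's equality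
`nilp (N on H^{2k}) = k` holds for `k ≤ 2` and for `k ≥ n - 1`, and for all `k` if `n ≤ 4`.
-/

set_option autoImplicit false

namespace Pool.Agent.Results.MP_55e6de_ag.TypeII

open Pool.Agent.MP_55e6de_ag

attribute [local instance 100] LieRing.ofAssociativeRing

theorem result {V H : Type*} [AddCommGroup V] [Module ℂ V] [FiniteDimensional ℂ V]
    [AddCommGroup H] [Module ℂ H] [FiniteDimensional ℂ H]
    (q : LinearMap.BilinForm ℂ V) (hq : ∀ x y, q x y = q y x)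
    (hV : 5 ≤ Module.finrank ℂ V) (s s' : V) (n : ℕ)
    (ρ : LLV q →ₗ⁅ℂ⁆ Module.End ℂ H) (h : IsHK q hq s s' ρ n)
    (N : Module.End ℂ V) (hN : ∀ x y, q (N x) y = - q x (N y)) (hN2 : ∀ x, N (N x) = 0)
    (hr : Module.finrank ℂ (LinearMap.range N) = 2) :
    (∀ k, 1 ≤ k → k ≤ n → k ≤ nilp q hq ρ n N hN k ∧
      nilp q hq ρ n N hN k ≤ max k (min (2 * k - 2) (n - 1))) ∧
    (∀ k, 1 ≤ k → k ≤ n → k ≤ 2 ∨ n ≤ k + 1 → nilp q hq ρ n N hN k = k) ∧
    (n ≤ 4 → ∀ k, 1 ≤ k → k ≤ n → nilp q hq ρ n N hN k = k) := by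
  have h1 := fun k (h1 : 1 ≤ k) (h2 : k ≤ n) => main_nilp h hV N hN hN2 hr k h1 h2
  have h2 : ∀ k, 1 ≤ k → k ≤ n → k ≤ 2 ∨ n ≤ k + 1 → nilp q hq ρ n N hN k = k := by
    intro k hk1 hk hk2
    have h3 := h1 k hk1 hk
    omega
  exact ⟨h1, h2, fun hn k hk1 hk => h2 k hk1 hk (by omega)⟩

end Pool.Agent.Results.MP_55e6de_ag.TypeII
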